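import Mathlib
import Pool.Agent.MP_2f3d29_nt.Defs
import Pool.Agent.MP_2f3d29_nt.C2
import Pool.Agent.MP_2f3d29_nt.E5
import Pool.Agent.MP_2f3d29_nt.F5

set_option autoImplicit false

open MeasureTheory

namespace Pool.Agent.Results.MP_2f3d29_nt.PrintedSign

open Pool.Agent.MP2f3d29

theorem prod_compl {k : ℕ} (α : Fin (k+1) → ℂ) (hα : ∑ i, α i = 0) {M : ℕ} (hM : 2 * M = k + 1)
    (δ : ℕ) (s : ℂ) :
    ∏ J ∈ Finset.powersetCard M (Finset.univ : Finset (Fin (k+1))),
        ∏ i ∈ Finset.range δ, (s + ∑ j ∈ J, α j + i) =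
      ∏ J ∈ Finset.powersetCard M (Finset.univ : Finset (Fin (k+1))),
        ∏ i ∈ Finset.range δ, (s - ∑ j ∈ J, α j + i) := by
  have hc : ∀ J : Finset (Fin (k+1)), ∑ j ∈ Jᶜ, α j = - ∑ j ∈ J, α j := by
    intro J
    have := Finset.sum_add_sum_compl J α
    rw [hα] at this
    linear_combination this
  refine Finset.prod_bij (fun J _ => Jᶜ) (fun J hJ => ?_) (fun J _ J' _ h => compl_injective h)
    (fun J hJ => ⟨Jᶜ, ?_, compl_compl J⟩) (fun J _ => ?_)
  · rw [Finset.mem_powersetCard_univ] at hJ ⊢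
    rw [Finset.card_compl, hJ, Fintype.card_fin]; omega
  · rw [Finset.mem_powersetCard_univ] at hJ ⊢
    rw [Finset.card_compl, hJ, Fintype.card_fin]; omega
  · rw [hc, sub_neg_eq_add]

/-- For `n = k + 1 ≥ 4` and `δ ≥ 1`, shift equations with the factors
`(s_m + ∑_{j ∈ J} α_j)_δ`, `|J| = m`, exist if and only if `n = 2m` (the index `m : Fin k` stands
for `m + 1`). -/
theorem result (k : ℕ) (hk : 3 ≤ k) (m : Fin k) (δ : ℕ) (hδ : 1 ≤ δ) :
    (∃ (r : ℕ) (P : Fin r → MvPolynomial (Fin k ⊕ Fin (k+1)) ℂ) (c : Fin r → Fin k → ℕ),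
        1 ≤ r ∧ (∀ i, δ ≤ c i m) ∧
        (∀ i, (P i).totalDegree + 2 * ∑ j, c i j = δ * (k+1).choose ((m : ℕ) + 1)) ∧
        ∀ I W, IsPower k I → IsCompletedWhittaker k I W →
          ∀ (α : Fin (k+1) → ℂ) (s : Fin k → ℂ), ∑ i, α i = 0 → MellinConverges W α s →
            (∀ i, MellinConverges W α (fun j => s j + c i j)) →
            (∏ J ∈ Finset.powersetCard ((m : ℕ) + 1) (Finset.univ : Finset (Fin (k+1))),
              ∏ i ∈ Finset.range δ, (s m + ∑ j ∈ J, α j + i)) * mellinW W α s =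
            ∑ i, MvPolynomial.eval (Sum.elim s α) (P i) * mellinW W α (fun j => s j + c i j)) ↔
      2 * ((m : ℕ) + 1) = k + 1 := by
  constructor
  · rintro ⟨r, P, c, -, hc, -, h⟩
    by_contra hne
    refine opposite_false m hne δ hδ hc (P := P) fun v hv hcv hci => ?_
    have hI := Iex_isPower k
    have hW := Wg_isCompleted hI
    set s : Fin k → ℂ := fun j => v (Sum.inl j) with hs
    set α : Fin (k+1) → ℂ := fun j => v (Sum.inr j) with hαd
    have hve : v = Sum.elim s α := by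
      funext i; cases i <;> rfl
    have hα : ∑ i, α i = 0 := hv
    rw [hve] at hcv hci ⊢
    have h4 := h (Iex k) (Wg k) hI hW α s hα ((mellin_converges_iff' hI hW α hα s).2 hcv)
      (fun i => (mellin_converges_iff' hI hW α hα _).2 (by rw [← sh_elim]; exact hci i))
    rw [mellin_eq' hI hW α hα s] at h4
    simp only [mellin_eq' hI hW α hα] at h4
    simpa only [sh_elim, Sum.elim_inl, Sum.elim_inr] using h4
  · intro hM
    obtain ⟨r, hr, P, c, -, h1, h2, -, h3⟩ := givental_shift_exact hk m δ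
    refine ⟨r, P, c, hr, h1, h2, fun I W hI hW α s hα hs hsi => ?_⟩
    have h4 := h3 (Sum.elim s α) (by simpa using hα)
      ((mellin_converges_iff' hI hW α hα s).1 hs) (fun i => by
        rw [sh_elim]; exact (mellin_converges_iff' hI hW α hα _).1 (hsi i))
    rw [prod_compl α hα hM, mellin_eq' hI hW α hα s]
    simp only [mellin_eq' hI hW α hα]
    simpa only [sh_elim, Sum.elim_inl, Sum.elim_inr] using h4

end Pool.Agent.Results.MP_2f3d29_nt.PrintedSign
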