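import Mathlib
import Pool.Agent.MP_2f3d29_nt.Defs
import Pool.Agent.MP_2f3d29_nt.C2
import Pool.Agent.MP_2f3d29_nt.E5

set_option autoImplicit false

open MeasureTheory

namespace Pool.Agent.Results.MP_2f3d29_nt.ShiftEquations

open Pool.Agent.MP2f3d29

/-- Shift equations for the Mellin transforms of the completed Whittaker functions of
`GL(n, ℝ)`, `n = k + 1 ≥ 4`.

First block: the power function `I` exists, the Jacquet integral converges absolutely for dominant
`α`, the completed Whittaker function `W` exists (so the continuation is entire in `α`), is unique,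
and its Mellin integral converges absolutely when all `Re s_j` are large.

Second block: the shift equations, for every `m ∈ {1, …, n-1}` (the index `m : Fin k` stands for
`m + 1`) and every `δ`, at all `s` where all Mellin integrals converge absolutely; the shifts are
pairwise distinct and every `P_i` contains the pure power `s_m ^ (deg P_i)`. -/
theorem result (k : ℕ) (hk : 3 ≤ k) :
    ((∃ I, IsPower k I) ∧
      ∀ I, IsPower k I →
        (∀ α : Fin (k+1) → ℂ, ∑ i, α i = 0 → Dominant α → ∀ y : Fin k → ℝ, (∀ i, 0 < y i) →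
          Integrable (jacquetIntegrand I α y)) ∧
        (∃ W, IsCompletedWhittaker k I W) ∧
        (∀ W W', IsCompletedWhittaker k I W → IsCompletedWhittaker k I W' →
          ∀ α : Fin (k+1) → ℂ, ∑ i, α i = 0 → ∀ y : Fin k → ℝ, (∀ i, 0 < y i) → W α y = W' α y) ∧
        (∀ W, IsCompletedWhittaker k I W → ∀ α : Fin (k+1) → ℂ, ∑ i, α i = 0 →
          ∃ A : ℝ, ∀ s : Fin k → ℂ, (∀ j, A ≤ (s j).re) → MellinConverges W α s)) ∧
    ∀ (m : Fin k) (δ : ℕ),
      ∃ (r : ℕ) (P : Fin r → MvPolynomial (Fin k ⊕ Fin (k+1)) ℂ) (c : Fin r → Fin k → ℕ),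
        1 ≤ r ∧ Function.Injective c ∧ (∀ i, δ ≤ c i m) ∧
        (∀ i, (P i).totalDegree + 2 * ∑ j, c i j = δ * (k+1).choose ((m : ℕ) + 1)) ∧
        (∀ i, MvPolynomial.coeff (Finsupp.single (Sum.inl m) (P i).totalDegree) (P i) ≠ 0) ∧
        ∀ I W, IsPower k I → IsCompletedWhittaker k I W →
          ∀ (α : Fin (k+1) → ℂ) (s : Fin k → ℂ), ∑ i, α i = 0 → MellinConverges W α s →
            (∀ i, MellinConverges W α (fun j => s j + c i j)) →
            (∏ J ∈ Finset.powersetCard ((m : ℕ) + 1) (Finset.univ : Finset (Fin (k+1))),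
              ∏ i ∈ Finset.range δ, (s m - ∑ j ∈ J, α j + i)) * mellinW W α s =
            ∑ i, MvPolynomial.eval (Sum.elim s α) (P i) * mellinW W α (fun j => s j + c i j) := by
  refine ⟨⟨⟨Iex k, Iex_isPower k⟩, fun I hI => ⟨fun α hα hd y hy => jacquet_integrable hI α hα hd y hy,
    ⟨Wg k, Wg_isCompleted hI⟩, fun W W' hW hW' α hα y hy => ?_, fun W hW α hα =>
      mellin_converges_far hI hW α hα⟩⟩, fun m δ => ?_⟩
  · rw [completed_unique hI hW α hα y hy, completed_unique hI hW' α hα y hy]
  · obtain ⟨r, hr, P, c, h0, h1, h2, h2', h3⟩ := givental_shift_exact hk m δ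
    refine ⟨r, P, c, hr, h0, h1, h2, h2', fun I W hI hW α s hα hs hsi => ?_⟩
    have h4 := h3 (Sum.elim s α) (by simpa using hα)
      ((mellin_converges_iff' hI hW α hα s).1 hs) (fun i => by
        rw [sh_elim]; exact (mellin_converges_iff' hI hW α hα _).1 (hsi i))
    rw [mellin_eq' hI hW α hα s]
    simp only [mellin_eq' hI hW α hα]
    simpa only [sh_elim, Sum.elim_inl, Sum.elim_inr] using h4

end Pool.Agent.Results.MP_2f3d29_nt.ShiftEquations
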